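import Pool.Graph.R_pool_sql_team_39128cda.Results.MP_2af702_co.Yes

/-!
# An infinite strictly increasing chain of unsplittable classes incomparable with Sep

Starting from the class `C` of the earlier example (`Yes`), we form the iterated inflations
`E 0 = C`, `E (k + 1) = C[E k]`, written as the class of all patterns of the uniform inflations
`δ[β, …, β]` with `δ ∈ C` and `β ∈ E k`. They are unsplittable and none of them contains all
separable permutations: `E k` avoids the separable permutation `2431[t, …, t]` if `E (k - 1)` avoids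
`t`. But every one of these avoided permutations lies in some later class, so that the increasing
chain is not eventually constant.
-/

set_option autoImplicit false
set_option linter.unusedSectionVars false

namespace Pool.Agent.Results.MP_2af702_co.InfiniteChain

open Pool.Agent.Results.MP_2af702_co.Yes

/-! ### Uniform inflations -/

/-- The lexicographic numbering of pairs. -/
abbrev lx {m k : ℕ} (a : Fin m) (b : Fin k) : Fin (m * k) := finProdFinEquiv (a, b)

theorem lx_lt {m k : ℕ} (a a' : Fin m) (b b' : Fin k) :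
    lx a b < lx a' b' ↔ a < a' ∨ (a = a' ∧ b < b') := by
  rw [Fin.lt_def, Fin.lt_def, Fin.lt_def, Fin.ext_iff]
  simp only [lx, finProdFinEquiv_apply_val]
  have hb := b.isLt
  have hb' := b'.isLt
  constructor
  · intro h
    rcases lt_trichotomy a.val a'.val with h1 | h1 | h1
    · exact Or.inl h1
    · exact Or.inr ⟨h1, by rw [h1] at h; omega⟩
    · exfalso
      have : k * (a'.val + 1) ≤ k * a.val := Nat.mul_le_mul_left k h1
      rw [Nat.mul_add, Nat.mul_one] at this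
      omega
  · rintro (h | ⟨h1, h2⟩)
    · have : k * (a.val + 1) ≤ k * a'.val := Nat.mul_le_mul_left k h
      rw [Nat.mul_add, Nat.mul_one] at this
      omega
    · rw [h1]
      omega

theorem lx_surj {m k : ℕ} (x : Fin (m * k)) : ∃ (a : Fin m) (b : Fin k), x = lx a b :=
  ⟨(finProdFinEquiv.symm x).1, (finProdFinEquiv.symm x).2,
    (finProdFinEquiv.apply_symm_apply x).symm⟩

/-- The uniform inflation `α[β, …, β]`. -/
def ui {m k : ℕ} (α : P m) (β : P k) : P (m * k) :=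
  (finProdFinEquiv.symm.trans (Equiv.prodCongr α β)).trans finProdFinEquiv

theorem ui_lx {m k : ℕ} (α : P m) (β : P k) (a : Fin m) (b : Fin k) :
    ui α β (lx a b) = lx (α a) (β b) := by
  simp [ui, lx]

theorem ui_lt {m k : ℕ} (α : P m) (β : P k) (a a' : Fin m) (b b' : Fin k) :
    ui α β (lx a b) < ui α β (lx a' b') ↔ α a < α a' ∨ (a = a' ∧ β b < β b') := by
  rw [ui_lx, ui_lx, lx_lt, α.injective.eq_iff]

theorem Emb.trans {k n m : ℕ} {α : P k} {β : P n} {γ : P m} {f : Fin k → Fin n} {g : Fin n → Fin m}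
    (h : Emb α β f) (h' : Emb β γ g) : Emb α γ (g ∘ f) :=
  ⟨h'.1.comp h.1, fun i j => (h.2 i j).trans (h'.2 _ _)⟩

/-- A map defined on pairs. -/
def onPairs {m k : ℕ} {X : Type} (f : Fin m → Fin k → X) (x : Fin (m * k)) : X :=
  f (finProdFinEquiv.symm x).1 (finProdFinEquiv.symm x).2

@[simp] theorem onPairs_lx {m k : ℕ} {X : Type} (f : Fin m → Fin k → X) (a : Fin m) (b : Fin k) :
    onPairs f (lx a b) = f a b := by
  simp [onPairs, lx]

theorem emb_onPairs {m k n : ℕ} {α : P m} {β : P k} {γ : P n} (f : Fin m → Fin k → Fin n)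
    (h1 : ∀ a a' b b', (a < a' ∨ (a = a' ∧ b < b')) → f a b < f a' b')
    (h2 : ∀ a a' b b', (α a < α a' ∨ (a = a' ∧ β b < β b')) ↔ γ (f a b) < γ (f a' b')) :
    Emb (ui α β) γ (onPairs f) := by
  constructor
  · intro x y hxy
    obtain ⟨a, b, rfl⟩ := lx_surj x
    obtain ⟨a', b', rfl⟩ := lx_surj y
    rw [onPairs_lx, onPairs_lx]
    exact h1 _ _ _ _ ((lx_lt a a' b b').1 hxy)
  · intro x y
    obtain ⟨a, b, rfl⟩ := lx_surj x
    obtain ⟨a', b', rfl⟩ := lx_surj y
    rw [onPairs_lx, onPairs_lx, ui_lt]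
    exact h2 _ _ _ _

theorem ui_emb {m k M K : ℕ} {δ : P m} {β : P k} {τA : P M} {τB : P K} {F : Fin m → Fin M}
    (hF : Emb δ τA F) {f : Fin m → Fin k → Fin K} (hf : ∀ a, Emb β τB (f a)) :
    Emb (ui δ β) (ui τA τB) (onPairs fun a b => lx (F a) (f a b)) := by
  apply emb_onPairs
  · rintro a a' b b' (h | ⟨rfl, h⟩)
    · exact (lx_lt _ _ _ _).2 (Or.inl (hF.1 h))
    · exact (lx_lt _ _ _ _).2 (Or.inr ⟨rfl, (hf a).1 h⟩)
  · intro a a' b b'
    rw [ui_lt, ← hF.2, hF.1.injective.eq_iff]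
    refine or_congr_right (and_congr_right ?_)
    rintro rfl
    exact (hf a).2 _ _

/-! ### The classes `A[B]` -/

/-- The class of the patterns of the uniform inflations `δ[β, …, β]` with `δ ∈ A` and `β ∈ B`. -/
def J (A B : Cl) : Cl := fun n =>
  {σ : P n | ∃ (m : ℕ) (δ : P m) (k : ℕ) (β : P k) (φ : Fin n → Fin (m * k)),
    δ ∈ A m ∧ β ∈ B k ∧ Emb σ (ui δ β) φ}

theorem J_class (A B : Cl) : IsClass (J A B) := by
  rintro n k β α f ⟨m, δ, l, ε, φ, h1, h2, h3⟩ hf
  exact ⟨m, δ, l, ε, φ ∘ f, h1, h2, Emb.trans hf h3⟩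

theorem emb_id {n : ℕ} (σ : P n) : Emb σ σ id := ⟨strictMono_id, fun _ _ => Iff.rfl⟩

theorem J_mem {A B : Cl} {m k : ℕ} {δ : P m} {β : P k} (h1 : δ ∈ A m) (h2 : β ∈ B k) :
    ui δ β ∈ J A B (m * k) := ⟨m, δ, k, β, id, h1, h2, emb_id _⟩

theorem J_unsplit {A B : Cl} (hA : Unsplittable A) (hB : Unsplittable B) :
    Unsplittable (J A B) := by
  classical
  rintro s t σ π ⟨m1, δ1, k1, β1, φ1, a1, b1, e1⟩ ⟨m2, δ2, k2, β2, φ2, a2, b2, e2⟩
  obtain ⟨M, τA, hτA, HA⟩ := hA _ _ δ1 δ2 a1 a2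
  obtain ⟨K, τB, hτB, HB⟩ := hB _ _ β1 β2 b1 b2
  refine ⟨M * K, ui τA τB, J_mem hτA hτB, fun c => ?_⟩
  let R : Fin M → Prop := fun a => ∃ f, Emb β1 τB f ∧ ∀ i, c (lx a (f i)) = true
  have hR : ∀ a, ¬ R a → ∃ f, Emb β2 τB f ∧ ∀ i, c (lx a (f i)) = false := by
    intro a ha
    rcases HB (fun b => c (lx a b)) with ⟨f, hf, hc⟩ | ⟨f, hf, hc⟩
    · exact absurd ⟨f, hf, hc⟩ ha
    · exact ⟨f, hf, hc⟩
  rcases HA (fun a => decide (R a)) with ⟨F, hF, hc⟩ | ⟨F, hF, hc⟩
  · left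
    have h : ∀ a, R (F a) := fun a => by simpa using hc a
    choose f hf hf' using h
    refine ⟨_, Emb.trans e1 (ui_emb hF hf), fun i => ?_⟩
    obtain ⟨a, b, hab⟩ := lx_surj (φ1 i)
    simp only [Function.comp, hab, onPairs_lx]
    exact hf' a b
  · right
    have h : ∀ a, ∃ f, Emb β2 τB f ∧ ∀ i, c (lx (F a) (f i)) = false :=
      fun a => hR _ (by simpa using hc a)
    choose f hf hf' using h
    refine ⟨_, Emb.trans e2 (ui_emb hF hf), fun i => ?_⟩
    obtain ⟨a, b, hab⟩ := lx_surj (φ2 i)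
    simp only [Function.comp, hab, onPairs_lx]
    exact hf' a b

/-- If `A` avoids `α` and `B` avoids `β`, then `A[B]` avoids `α[β, …, β]`. -/
theorem J_avoid {A B : Cl} (cA : IsClass A) (cB : IsClass B) {m k : ℕ} {α : P m} {β : P (k + 1)}
    (hα : α ∉ A m) (hβ : β ∉ B (k + 1)) : ui α β ∉ J A B (m * (k + 1)) := by
  rintro ⟨M, δ, K, ε, φ, hδ, hε, e⟩
  let bl : Fin m → Fin (k + 1) → Fin M := fun a b => (finProdFinEquiv.symm (φ (lx a b))).1
  let ps : Fin m → Fin (k + 1) → Fin K := fun a b => (finProdFinEquiv.symm (φ (lx a b))).2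
  have hφ : ∀ a b, φ (lx a b) = lx (bl a b) (ps a b) := fun a b =>
    (finProdFinEquiv.apply_symm_apply _).symm
  have hmono : ∀ a a' b b', (a < a' ∨ (a = a' ∧ b < b')) →
      bl a b < bl a' b' ∨ (bl a b = bl a' b' ∧ ps a b < ps a' b') := by
    intro a a' b b' h
    have := e.1 ((lx_lt a a' b b').2 h)
    rwa [hφ, hφ, lx_lt] at this
  have hval : ∀ a a' b b', (α a < α a' ∨ (a = a' ∧ β b < β b')) ↔
      (δ (bl a b) < δ (bl a' b') ∨ (bl a b = bl a' b' ∧ ε (ps a b) < ε (ps a' b'))) := by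
    intro a a' b b'
    have := e.2 (lx a b) (lx a' b')
    rwa [hφ, hφ, ui_lt, ui_lt] at this
  have hle : ∀ a a' b b', (a < a' ∨ (a = a' ∧ b ≤ b')) → bl a b ≤ bl a' b' := by
    rintro a a' b b' (h | ⟨rfl, h⟩)
    · rcases hmono a a' b b' (Or.inl h) with h | h
      · exact h.le
      · exact h.1.le
    · rcases h.eq_or_lt with rfl | h
      · exact le_rfl
      · rcases hmono a a b b' (Or.inr ⟨rfl, h⟩) with h | h
        · exact h.le
        · exact h.1.le
  have hne : ∀ a, bl a 0 ≠ bl a (Fin.last k) := by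
    intro a h0
    have hall : ∀ b b', bl a b = bl a b' := by
      have : ∀ b, bl a b = bl a 0 := fun b => le_antisymm
        (h0 ▸ hle a a b (Fin.last k) (Or.inr ⟨rfl, Fin.le_last b⟩))
        (hle a a 0 b (Or.inr ⟨rfl, Fin.zero_le b⟩))
      intro b b'
      rw [this b, this b']
    apply hβ
    refine cB _ _ ε β (ps a) hε ⟨fun b b' hbb => ?_, fun b b' => ?_⟩
    · rcases hmono a a b b' (Or.inr ⟨rfl, hbb⟩) with h | h
      · exact absurd (hall b b') h.ne
      · exact h.2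
    · have := hval a a b b'
      simpa [hall b b'] using this
  have hlt : ∀ a, bl a 0 < bl a (Fin.last k) := fun a =>
    lt_of_le_of_ne (hle a a 0 _ (Or.inr ⟨rfl, Fin.zero_le _⟩)) (hne a)
  have hstr : StrictMono fun a => bl a (Fin.last k) := fun a a' h =>
    (hle a a' (Fin.last k) 0 (Or.inl h)).trans_lt (hlt a')
  apply hα
  refine cA _ _ δ α (fun a => bl a (Fin.last k)) hδ ⟨hstr, fun a a' => ?_⟩
  have := hval a a' (Fin.last k) (Fin.last k)
  rw [hstr.injective.eq_iff] at this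
  constructor
  · intro h
    rcases this.1 (Or.inl h) with h | ⟨rfl, -⟩
    · exact h
    · exact absurd h (lt_irrefl _)
  · intro h
    rcases this.2 (Or.inl h) with h | ⟨rfl, -⟩
    · exact h
    · exact absurd h (lt_irrefl _)

/-! ### Separable permutations -/

theorem simple_blocks {m k : ℕ} {α : P m} {β : P k} (p : P 4)
    (H1 : ¬ (p 0 < p 3 ↔ p 1 < p 3)) (H2 : ¬ (p 1 < p 0 ↔ p 2 < p 0))
    (H3 : ¬ (p 2 < p 0 ↔ p 3 < p 0)) (f : Fin 4 → Fin (m * k)) (hf : Emb p (ui α β) f) :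
    (∃ g, Emb p α g) ∨ ∃ g, Emb p β g := by
  let g : Fin 4 → Fin m := fun i => (finProdFinEquiv.symm (f i)).1
  let h : Fin 4 → Fin k := fun i => (finProdFinEquiv.symm (f i)).2
  have hfg : ∀ i, f i = lx (g i) (h i) := fun i => (finProdFinEquiv.apply_symm_apply _).symm
  have hmono : ∀ i j, i < j → g i < g j ∨ (g i = g j ∧ h i < h j) := by
    intro i j hij
    have := hf.1 hij
    rwa [hfg, hfg, lx_lt] at this
  have hval : ∀ i j, p i < p j ↔ (α (g i) < α (g j) ∨ (g i = g j ∧ β (h i) < β (h j))) := by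
    intro i j
    rw [hf.2, hfg, hfg, ui_lt]
  have hle : ∀ i j, i ≤ j → g i ≤ g j := by
    intro i j hij
    rcases hij.eq_or_lt with rfl | hij
    · exact le_rfl
    · rcases hmono i j hij with h | h
      · exact h.le
      · exact h.1.le
  have H : ∀ i j l, g i = g j → g i ≠ g l → (p i < p l ↔ p j < p l) := by
    intro i j l hij hil
    have hjl : g j ≠ g l := hij ▸ hil
    rw [hval, hval, hij]
    simp [hjl]
  by_cases h01 : g 0 = g 1
  · have h03 : g 0 = g 3 := by
      by_contra hc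
      exact H1 (H 0 1 3 h01 hc)
    right
    have hall : ∀ i, g i = g 0 := fun i => le_antisymm
      (h03 ▸ hle i 3 (by omega)) (hle 0 i (by omega))
    have hall' : ∀ i j, g i = g j := fun i j => (hall i).trans (hall j).symm
    refine ⟨h, fun i j hij => ?_, fun i j => ?_⟩
    · rcases hmono i j hij with hh | hh
      · exact absurd (hall' i j) hh.ne
      · exact hh.2
    · rw [hval i j]
      simp [hall' i j]
  · have h12 : g 1 ≠ g 2 := by
      intro hc
      exact H2 (H 1 2 0 hc (fun h => h01 h.symm))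
    have h02 : g 0 ≠ g 2 := by
      intro hc
      apply h01
      exact le_antisymm (hle 0 1 (by decide)) (hc ▸ hle 1 2 (by decide))
    have h23 : g 2 ≠ g 3 := by
      intro hc
      exact H3 (H 2 3 0 hc (fun h => h02 h.symm))
    left
    have hs : StrictMono g := by
      rw [Fin.strictMono_iff_lt_succ]
      intro i
      fin_cases i
      · exact lt_of_le_of_ne (hle 0 1 (by decide)) h01
      · exact lt_of_le_of_ne (hle 1 2 (by decide)) h12
      · exact lt_of_le_of_ne (hle 2 3 (by decide)) h23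
    refine ⟨g, hs, fun i j => ?_⟩
    rw [hval i j, hs.injective.eq_iff]
    constructor
    · rintro (h | ⟨rfl, h⟩)
      · exact h
      · exact absurd h (lt_irrefl _)
    · exact Or.inl

theorem Sep_ui {m k : ℕ} {α : P m} {β : P k} (hα : α ∈ Yes.Sep m) (hβ : β ∈ Yes.Sep k) :
    ui α β ∈ Yes.Sep (m * k) := by
  constructor
  · rintro ⟨f, hf⟩
    rcases simple_blocks p2413 (by decide) (by decide) (by decide) f hf with h | h
    · exact hα.1 h
    · exact hβ.1 h
  · rintro ⟨f, hf⟩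
    rcases simple_blocks p3142 (by decide) (by decide) (by decide) f hf with h | h
    · exact hα.2 h
    · exact hβ.2 h

/-! ### The chain -/

/-- The iterated inflations `E 0 = C`, `E (k + 1) = C[E k]`. -/
def E : ℕ → Cl
  | 0 => C
  | k + 1 => J C (E k)

/-- The sizes of the avoided permutations, minus one. -/
def sz : ℕ → ℕ
  | 0 => 3
  | k + 1 => 4 * sz k + 3

theorem sz_succ (k : ℕ) : 4 * (sz k + 1) = sz (k + 1) + 1 := by
  rw [sz]
  omega

/-- Transport of a permutation along an equality of sizes. -/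
def tr {m n : ℕ} (h : m = n) (α : P m) : P n := h ▸ α

theorem tr_mem {m n : ℕ} (h : m = n) (α : P m) (A : Cl) : tr h α ∈ A n ↔ α ∈ A m := by
  subst h
  rfl

theorem tr_ui {l m n : ℕ} (h : m = n) (δ : P l) (α : P m) (A : Cl) :
    ui δ (tr h α) ∈ A (l * n) ↔ ui δ α ∈ A (l * m) := by
  subst h
  rfl

/-- The avoided permutations: `t 0 = 2431` and `t (k + 1) = 2431[t k, …, t k]`. -/
def t : ∀ k : ℕ, P (sz k + 1)
  | 0 => p2431
  | k + 1 => tr (sz_succ k) (ui p2431 (t k))

theorem C_avoids : p2431 ∉ C 4 := by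
  rintro ⟨g, g1, g2⟩
  exact avoid (g 3) (g 0) (g 1) (g 2) (g1 (by decide)) (g1 (by decide)) (g1 (by decide))
      ((g2 _ _).1 (by decide)) ((g2 _ _).1 (by decide)) ((g2 _ _).1 (by decide))

theorem C_3142 : p3142 ∈ C 4 := by
  refine ⟨![Pt.U 0, Pt.L 0 0 (Pt.U 0), Pt.U 1, Pt.L 0 1 (Pt.U 0)], ?_, ?_⟩
  · unfold StrictMono; decide
  · decide

theorem E_class : ∀ k, IsClass (E k)
  | 0 => cls
  | _ + 1 => J_class _ _

theorem E_unsplit : ∀ k, Unsplittable (E k)
  | 0 => unsplit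
  | k + 1 => J_unsplit unsplit (E_unsplit k)

theorem t_notMem : ∀ k, t k ∉ E k (sz k + 1)
  | 0 => C_avoids
  | k + 1 => by
    rw [t, tr_mem]
    exact J_avoid cls (E_class k) C_avoids (t_notMem k)

theorem p2431_sep : p2431 ∈ Yes.Sep 4 := ⟨by decide +kernel, by decide +kernel⟩

theorem t_sep : ∀ k, t k ∈ Yes.Sep (sz k + 1)
  | 0 => p2431_sep
  | k + 1 => by
    rw [t, tr_mem]
    exact Sep_ui p2431_sep (t_sep k)

/-- The permutations `1`, `12`, `21`. -/
def p1 : P 1 := 1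
def p12 : P 2 := 1
def p21 : P 2 := ⟨![1, 0], ![1, 0], by decide, by decide⟩

theorem p1_mem : p1 ∈ C 1 := cls _ _ _ _ ![0] C_3142 ⟨by unfold StrictMono; decide, by decide⟩
theorem p12_mem : p12 ∈ C 2 :=
  cls _ _ _ _ ![0, 2] C_3142 ⟨by unfold StrictMono; decide, by decide⟩
theorem p21_mem : p21 ∈ C 2 :=
  cls _ _ _ _ ![0, 1] C_3142 ⟨by unfold StrictMono; decide, by decide⟩

theorem J_ge {B : Cl} (n : ℕ) : B n ⊆ J C B n := by
  intro β hβ
  refine ⟨1, p1, n, β, fun b => lx 0 b, p1_mem, hβ, fun b b' h => (lx_lt _ _ _ _).2 (Or.inr ⟨rfl, h⟩),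
    fun b b' => ?_⟩
  rw [ui_lt]
  simp

theorem E_mono_succ (k n : ℕ) : E k n ⊆ E (k + 1) n := J_ge n

theorem E_mono {k l : ℕ} (h : k ≤ l) (n : ℕ) : E k n ⊆ E l n := by
  induction h with
  | refl => exact subset_rfl
  | step _ ih => exact ih.trans (E_mono_succ _ n)

/-- `2431[x, …, x]` is a pattern of `21[12[21[x]]]`. -/
theorem emb_2431 {n : ℕ} (x : P n) : ∃ f, Emb (ui p2431 x) (ui p21 (ui p12 (ui p21 x))) f := by
  let A1 : Fin 4 → Fin 2 := ![0, 0, 0, 1]
  let A2 : Fin 4 → Fin 2 := ![0, 1, 1, 0]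
  let A3 : Fin 4 → Fin 2 := ![0, 0, 1, 0]
  refine ⟨_, emb_onPairs (fun a b => lx (A1 a) (lx (A2 a) (lx (A3 a) b))) ?_ ?_⟩
  · intro a a' b b'
    rw [lx_lt, lx_lt, lx_lt]
    fin_cases a <;> fin_cases a' <;> simp [A1, A2, A3]
  · intro a a' b b'
    rw [ui_lt, ui_lt, ui_lt]
    fin_cases a <;> fin_cases a' <;> simp [A1, A2, A3, p2431, p21, p12]

theorem t_mem : ∀ k, t k ∈ E (3 * k + 2) (sz k + 1)
  | 0 => by
    have h : ui p21 (ui p12 p21) ∈ J C (J C C) _ := J_mem p21_mem (J_mem p12_mem p21_mem)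
    refine E_class 2 _ _ _ _ ![0, 2, 3, 4] h ⟨by unfold StrictMono; decide, by decide⟩
  | k + 1 => by
    rw [t, tr_mem]
    have h := J_mem p21_mem (J_mem p12_mem (J_mem p21_mem (t_mem k)))
    obtain ⟨f, hf⟩ := emb_2431 (t k)
    exact E_class (3 * (k + 1) + 2) _ _ _ _ _ h hf

/-- The indices of the chain. -/
def ix : ℕ → ℕ
  | 0 => 0
  | k + 1 => 3 * ix k + 2

/-- **There is an infinite strictly increasing chain of unsplittable permutation classes, none of
which contains, or is contained in, the class of the separable permutations.** -/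
theorem result : ∃ F : ℕ → Cl,
    (∀ k, IsClass (F k) ∧ Unsplittable (F k) ∧ (¬ ∀ n, Yes.Sep n ⊆ F k n) ∧
      ¬ ∀ n, F k n ⊆ Yes.Sep n) ∧
      ∀ k, (∀ n, F k n ⊆ F (k + 1) n) ∧ ¬ ∀ n, F (k + 1) n ⊆ F k n := by
  refine ⟨fun k => E (ix k), fun k => ⟨E_class _, E_unsplit _, fun h => ?_, fun h => ?_⟩,
    fun k => ⟨fun n => E_mono (by rw [ix]; omega) n, fun h => ?_⟩⟩
  · exact t_notMem _ (h _ (t_sep _))
  · exact (h 4 (E_mono (Nat.zero_le _) 4 C_3142)).2 ⟨id, strictMono_id, fun _ _ => Iff.rfl⟩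
  · exact t_notMem _ (h _ (t_mem (ix k)))

end Pool.Agent.Results.MP_2af702_co.InfiniteChain
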